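import Mathlib
import Pool.Agent.helper80.UnivDVK

/-!
# Level sets at de Vries-Komornik numbers

For every de Vries-Komornik number `q` with `1.87064 < q ≤ q_max` the level set `L(q)` of the
smallest univoque base function is infinite.  The definitions `IsExpansion`, `univoqueBases`, `qs`,
`levelSet`, `qmax` are in `Pool/Agent/helper80/Univoque.lean`, the definitions `gapSet` and `IsDVK`
in `Pool/Agent/helper80/UnivDVK.lean`.
-/

set_option autoImplicit false

namespace Pool.Agent.Results.MP_bdab2f_nt.DVKLevelSets

open Pool.Agent.helper80.Univ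

theorem result (q : ℝ) (hq : IsDVK q) (h1 : 1.87064 < q) (h2 : q ≤ qmax) : (levelSet q).Infinite :=
  dvk_infinite hq h1 h2

end Pool.Agent.Results.MP_bdab2f_nt.DVKLevelSets
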