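import Mathlib
import Pool.Agent.helper80.UnivPoint

/-!
# A univoque base whose level set under the smallest univoque base function is one point

The base `q` is the root of `q^5 - q^4 - q^3 - 2 q^2 + q + 1` in `(1.8713, 1.8714)`; the unique
expansion of `1` in base `q` is `111(001)^∞`.  The definitions (`IsExpansion`, `univoqueBases`,
`qs`, `levelSet`, `qmax`) are in `Pool/Agent/helper80/Univoque.lean`.
-/

set_option autoImplicit false

namespace Pool.Agent.Results.MP_bdab2f_nt.LevelSetPoint

open Pool.Agent.helper80.Univ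

theorem result : ∃ q : ℝ, 1.8713 < q ∧ q < 1.8714 ∧ q ^ 5 - q ^ 4 - q ^ 3 - 2 * q ^ 2 + q + 1 = 0 ∧
    q ∈ univoqueBases 1 ∧ q ∈ closure (univoqueBases 1) ∧ q < qmax ∧
    levelSet q = {1 / q + 1 / (q ^ 4 * (q - 1))} := by
  obtain ⟨a, ha⟩ := exists_root
  exact ⟨a, ha.l, ha.u, ha.e, root_univoque ha, subset_closure (root_univoque ha),
    root_lt_qmax ha, levelSet_root ha⟩

end Pool.Agent.Results.MP_bdab2f_nt.LevelSetPoint
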